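import Pool.Agent.Y134.TF.Ext

/-!
# Orbits of an eigenvector under subgroups of finite index
-/

set_option autoImplicit false

namespace Pool.Agent.Y134.TH

open Polynomial Module Pool.Agent.Y134.Two Pool.Agent.Y134.TF

section
variable {K : Type} [Field K] {V : Type} [AddCommGroup V] [Module K V] {G : Type} [Group G]

/-- A vector `v` such that the projection to its line is a polynomial in every power of `g₁` and the
orbits of `v` under subgroups of finite index generate the space. -/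
structure GoodVec (ρ : Representation K G V) (b : V →ₗ[K] V →ₗ[K] K) (g₁ : G) (v : V) : Prop where
  vv : b v v ≠ 0
  proj : ∀ m : ℕ, 0 < m →
    ∃ (S : K[X]) (κ : K), κ ≠ 0 ∧ ∀ x, (aeval (ρ g₁ ^ m) S) x = (κ * b v x) • v
  span : ∀ H : Subgroup G, H.FiniteIndex → Submodule.span K {x | ∃ g ∈ H, x = ρ g v} = ⊤

variable [CharZero K] [FiniteDimensional K V] {ρ : Representation K G V}
  {b : V →ₗ[K] V →ₗ[K] K} {g₁ : G} {ε : K} {R : K[X]}

lemma eval_ne (hR : ∀ n : ℕ, 0 < n → IsCoprime R (X ^ n - 1)) {t : K} (ht : t * t = 1) :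
    R.eval t ≠ 0 := by
  intro h0
  obtain ⟨u, w, huw⟩ := hR 2 two_pos
  have h1 := congrArg (eval t) huw
  rw [eval_add, eval_mul, eval_mul, h0, eval_sub, eval_pow, eval_X, eval_one, sq, ht, sub_self,
    mul_zero, mul_zero, add_zero] at h1
  exact zero_ne_one h1

theorem exists_proj' (hb : ∀ x, (∀ y, b x y = 0) → x = 0)
    (hinv : ∀ g x y, b (ρ g x) (ρ g y) = b x y) (hε : ε * ε = 1)
    (hcp' : (ρ g₁).charpoly = (X - C ε) * R) (hR : ∀ n : ℕ, 0 < n → IsCoprime R (X ^ n - 1))
    {v : V} (hvv : b v v ≠ 0) (hv : ρ g₁ v = ε • v) {m : ℕ} (hm : 0 < m) :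
    ∃ (S : K[X]) (κ : K), κ ≠ 0 ∧ ∀ x, (aeval (ρ g₁ ^ m) S) x = (κ * b v x) • v := by
  classical
  have hR1 := eval_ne hR (one_mul 1)
  have hR2 : R.eval (-1) ≠ 0 := eval_ne hR (by rw [neg_mul_neg, one_mul])
  have hW := perp_le (hinv g₁) hvv hv
  obtain ⟨-, -, hcp⟩ := charpoly_restrict hb (hinv g₁) hcp' hR1 hR2 hvv hv hW
  set W := perp b v with hWdef
  set f : Module.End K W := (ρ g₁).restrict hW with hf
  have hfpow : ∀ (n : ℕ) (x : W), ((f ^ n) x : V) = (ρ g₁ ^ n) x := by
    intro n x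
    induction n with
    | zero => rfl
    | succ n ih =>
      rw [pow_succ', Module.End.mul_apply, pow_succ', Module.End.mul_apply, ← ih]
      rfl
  have hWm : ∀ x ∈ W, (ρ g₁ ^ m) x ∈ W := by
    intro x hx
    have := ((f ^ m) ⟨x, hx⟩).2
    rwa [hfpow] at this
  have hcW : (ρ g₁ ^ m).restrict hWm = f ^ m := by
    refine LinearMap.ext fun x => Subtype.ext ?_
    rw [hfpow]
    rfl
  have hvm : (ρ g₁ ^ m) v = (ε ^ m) • v := by
    have : ∀ n : ℕ, (ρ g₁ ^ n) v = (ε ^ n) • v := by
      intro n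
      induction n with
      | zero => simp
      | succ n ih => rw [pow_succ', Module.End.mul_apply, ih, map_smul, hv, smul_smul, pow_succ]
    exact this m
  have hv0 : v ≠ 0 := by
    rintro rfl
    exact hvv (by simp)
  have hS : ((f ^ m).charpoly).eval (ε ^ m) ≠ 0 := by
    intro h0
    have h1 : Module.End.HasEigenvalue (f ^ m) (ε ^ m) := by
      rw [Module.End.hasEigenvalue_iff_isRoot_charpoly]
      exact h0
    obtain ⟨w, hw⟩ := h1.exists_hasEigenvector
    have hw1 : (f ^ m) w = (ε ^ m) • w := hw.apply_eq_smul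
    have hw2 : (f ^ (2 * m)) w = w := by
      rw [two_mul, pow_add, Module.End.mul_apply, hw1, map_smul, hw1, smul_smul, ← mul_pow, hε,
        one_pow, one_smul]
    obtain ⟨s, t, hst⟩ := hR (2 * m) (by omega)
    have h2 := congrArg (fun p : K[X] => (aeval f p) w) hst
    simp only [map_add, map_mul, map_sub, map_pow, map_one, aeval_X, LinearMap.add_apply,
      Module.End.mul_apply, LinearMap.sub_apply, Module.End.one_apply] at h2
    have h3 : (aeval f R) w = 0 := by
      rw [← hcp, LinearMap.aeval_self_charpoly, LinearMap.zero_apply]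
    rw [h3, hw2, sub_self, map_zero, add_zero] at h2
    exact hw.2 h2.symm
  refine ⟨(f ^ m).charpoly, ((f ^ m).charpoly).eval (ε ^ m) / b v v, div_ne_zero hS hvv, ?_⟩
  intro x
  have h1 : x - (b v x / b v v) • v ∈ W := by
    rw [hWdef, mem_perp, map_sub, map_smul, smul_eq_mul, div_mul_cancel₀ _ hvv, sub_self]
  have h2 : (aeval (ρ g₁ ^ m) (f ^ m).charpoly) (x - (b v x / b v v) • v) = 0 := by
    have h3 := aeval_restrict hWm (f ^ m).charpoly ⟨_, h1⟩
    rw [hcW, LinearMap.aeval_self_charpoly, LinearMap.zero_apply, ZeroMemClass.coe_zero] at h3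
    exact h3
  have h3 : (aeval (ρ g₁ ^ m) (f ^ m).charpoly) v = ((f ^ m).charpoly).eval (ε ^ m) • v :=
    Module.End.aeval_apply_of_hasEigenvector
      ⟨Module.End.mem_eigenspace_iff.2 hvm, hv0⟩
  rw [map_sub, map_smul, h3, sub_eq_zero] at h2
  rw [h2, smul_smul]
  congr 1
  field_simp

/-- **Orbits under subgroups of finite index generate the space.** -/
theorem span_top' (hinv : ∀ g x y, b (ρ g x) (ρ g y) = b x y) {v : V} (hvv : b v v ≠ 0)
    (hproj : ∀ m : ℕ, 0 < m →
      ∃ (S : K[X]) (κ : K), κ ≠ 0 ∧ ∀ x, (aeval (ρ g₁ ^ m) S) x = (κ * b v x) • v)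
    (hred : ∀ Γ' : Subgroup G, Γ'.Normal → Γ'.FiniteIndex → Γ'.index ≤ (finrank K V).factorial →
      ∀ U : Submodule K V, (∀ g ∈ Γ', ∀ x ∈ U, ρ g x ∈ U) → U = ⊥ ∨ U = ⊤)
    {H : Subgroup G} (hH : H.FiniteIndex) :
    Submodule.span K {x | ∃ g ∈ H, x = ρ g v} = ⊤ := by
  classical
  have hv0 : v ≠ 0 := by
    rintro rfl
    exact hvv (by simp)
  set Δ := H.normalCore with hΔ
  have : Δ.Normal := H.normalCore_normal
  have hΔf : Δ.FiniteIndex := inferInstance
  obtain ⟨m, hm, -, hmΔ⟩ := Δ.exists_pow_mem_of_index_ne_zero hΔf.index_ne_zero g₁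
  -- stable subspaces contain `v` or are orthogonal to it
  have key : ∀ A : Submodule K V, (∀ g ∈ Δ, ∀ x ∈ A, ρ g x ∈ A) → v ∈ A ∨ ∀ x ∈ A, b v x = 0 := by
    intro A hA
    by_cases h0 : ∀ x ∈ A, b v x = 0
    · exact Or.inr h0
    · left
      push Not at h0
      obtain ⟨x, hx, hx0⟩ := h0
      obtain ⟨S, κ, hκ, hS⟩ := hproj m hm
      have hstab : ∀ y ∈ A, (ρ g₁ ^ m) y ∈ A := by
        intro y hy
        rw [← map_pow]
        exact hA _ hmΔ y hy
      have h1 : (aeval (ρ g₁ ^ m) S) x ∈ A := by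
        have h2 := aeval_restrict hstab S ⟨x, hx⟩
        rw [h2]
        exact Submodule.coe_mem _
      rw [hS] at h1
      have h2 : κ * b v x ≠ 0 := mul_ne_zero hκ hx0
      have h3 := A.smul_mem (κ * b v x)⁻¹ h1
      rwa [smul_smul, inv_mul_cancel₀ h2, one_smul] at h3
  set U := Submodule.span K {x | ∃ g ∈ Δ, x = ρ g v} with hU
  have hUle : U ≤ Submodule.span K {x | ∃ g ∈ H, x = ρ g v} := by
    apply Submodule.span_mono
    rintro _ ⟨g, hg, rfl⟩
    exact ⟨g, H.normalCore_le hg, rfl⟩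
  have hvU : v ∈ U := Submodule.subset_span ⟨1, Δ.one_mem, by rw [map_one, Module.End.one_apply]⟩
  -- the translates
  have htr : ∀ γ : G, ∀ x ∈ U, ρ γ x ∈ Submodule.span K {x | ∃ g ∈ Δ, x = ρ g (ρ γ v)} := by
    intro γ x hx
    induction hx using Submodule.span_induction with
    | mem x hx =>
      obtain ⟨g, hg, rfl⟩ := hx
      refine Submodule.subset_span ⟨γ * g * γ⁻¹, (inferInstance : Δ.Normal).conj_mem g hg γ, ?_⟩
      rw [← Module.End.mul_apply, ← map_mul, ← Module.End.mul_apply, ← map_mul,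
        inv_mul_cancel_right]
    | zero => rw [map_zero]; exact Submodule.zero_mem _
    | add x y _ _ hx hy => rw [map_add]; exact Submodule.add_mem _ hx hy
    | smul c x _ hx => rw [map_smul]; exact Submodule.smul_mem _ _ hx
  have hmap : ∀ γ : G, ∀ A : Submodule K V, (∀ g ∈ Δ, ∀ x ∈ A, ρ g x ∈ A) →
      ∀ g ∈ Δ, ∀ x ∈ A.map (ρ γ), ρ g x ∈ A.map (ρ γ) := by
    rintro γ A hA g hg _ ⟨x, hx, rfl⟩
    refine ⟨ρ (γ⁻¹ * g * γ) x, hA _ ?_ x hx, ?_⟩
    · have := (inferInstance : Δ.Normal).conj_mem g hg γ⁻¹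
      rwa [inv_inv] at this
    · rw [← Module.End.mul_apply, ← map_mul, ← Module.End.mul_apply, ← map_mul]
      congr 2
      group
  have hUst : ∀ g ∈ Δ, ∀ x ∈ U, ρ g x ∈ U := by
    intro g hg x hx
    have h1 : U ≤ U.comap (ρ g) := by
      rw [hU, Submodule.span_le]
      rintro _ ⟨g', hg', rfl⟩
      rw [SetLike.mem_coe, Submodule.mem_comap, ← Module.End.mul_apply, ← map_mul]
      exact Submodule.subset_span ⟨g * g', Δ.mul_mem hg hg', rfl⟩
    exact h1 hx
  have hinj : ∀ γ : G, Function.Injective (ρ γ) := by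
    intro γ x y hxy
    have h1 := congrArg (ρ γ⁻¹) hxy
    rwa [← Module.End.mul_apply, ← Module.End.mul_apply, ← map_mul, inv_mul_cancel, map_one,
      Module.End.one_apply, Module.End.one_apply] at h1
  have hfr : ∀ γ : G, finrank K (U.map (ρ γ)) = finrank K U := fun γ =>
    (Submodule.equivMapOfInjective (ρ γ) (hinj γ) U).finrank_eq.symm
  -- the stabilizer
  let St : Subgroup G :=
    { carrier := {γ | U.map (ρ γ) = U}
      one_mem' := by
        change U.map (ρ 1) = U
        rw [map_one, Module.End.one_eq_id, Submodule.map_id]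
      mul_mem' := by
        intro x y hx hy
        change U.map (ρ (x * y)) = U
        change U.map (ρ x) = U at hx
        change U.map (ρ y) = U at hy
        rw [map_mul, Module.End.mul_eq_comp, Submodule.map_comp, hy, hx]
      inv_mem' := by
        intro x hx
        change U.map (ρ x⁻¹) = U
        change U.map (ρ x) = U at hx
        conv_lhs => rw [← hx]
        rw [← Submodule.map_comp, ← Module.End.mul_eq_comp, ← map_mul, inv_mul_cancel, map_one,
          Module.End.one_eq_id, Submodule.map_id] }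
  -- vectors from different translates are orthogonal
  have horth : ∀ x y : G, (x : G ⧸ St) ≠ y → b (ρ x v) (ρ y v) = 0 := by
    intro x y hxy
    have h1 := key (U.map (ρ (x⁻¹ * y))) (hmap _ U hUst)
    rcases h1 with h2 | h2
    · exfalso
      apply hxy
      rw [QuotientGroup.eq]
      change U.map (ρ (x⁻¹ * y)) = U
      symm
      refine Submodule.eq_of_le_of_finrank_eq ?_ (hfr _).symm
      rw [hU, Submodule.span_le]
      rintro _ ⟨g, hg, rfl⟩
      exact hmap _ U hUst g hg v h2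
    · have h3 := h2 _ (Submodule.mem_map_of_mem hvU)
      rw [← hinv x, ← Module.End.mul_apply (ρ x) (ρ (x⁻¹ * y)), ← map_mul,
        mul_inv_cancel_left] at h3
      exact h3
  -- the index
  have hli : LinearIndependent K (fun c : G ⧸ St => ρ c.out v) := by
    apply LinearMap.linearIndependent_of_isOrthoᵢ (B := b)
    · intro c d hcd
      apply horth
      rw [QuotientGroup.out_eq', QuotientGroup.out_eq']
      exact hcd
    · intro c
      change b (ρ c.out v) (ρ c.out v) ≠ 0
      rw [hinv]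
      exact hvv
  have : Finite (G ⧸ St) := hli.finite
  let _ : Fintype (G ⧸ St) := Fintype.ofFinite _
  have hcard : Nat.card (G ⧸ St) ≤ finrank K V := by
    rw [Nat.card_eq_fintype_card]
    exact hli.fintype_card_le_finrank
  have hSt : St.FiniteIndex := Subgroup.finiteIndex_of_finite_quotient
  have hN : St.normalCore.index ≤ (finrank K V).factorial := by
    rw [Subgroup.normalCore_eq_ker, Subgroup.index_ker]
    refine (Nat.card_le_card_of_injective _ Subtype.coe_injective).trans ?_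
    rw [Nat.card_perm]
    exact Nat.factorial_le hcard
  have hcore : ∀ g ∈ St.normalCore, ∀ x ∈ U, ρ g x ∈ U := by
    intro g hg x hx
    have h1 : U.map (ρ g) = U := St.normalCore_le hg
    rw [← h1]
    exact Submodule.mem_map_of_mem hx
  rcases hred St.normalCore St.normalCore_normal inferInstance hN U hcore with h1 | h1
  · rw [h1] at hvU
    exact (hv0 ((Submodule.mem_bot K).1 hvU)).elim
  · rw [eq_top_iff, ← h1]
    exact hUle

/-- The eigenvector for `ε` is a good vector. -/
theorem exists_goodVec (hb : ∀ x, (∀ y, b x y = 0) → x = 0)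
    (hinv : ∀ g x y, b (ρ g x) (ρ g y) = b x y) (hε : ε * ε = 1)
    (hcp : (ρ g₁).charpoly = (X - C ε) * R) (hR : ∀ n : ℕ, 0 < n → IsCoprime R (X ^ n - 1))
    (hred : ∀ Γ' : Subgroup G, Γ'.Normal → Γ'.FiniteIndex → Γ'.index ≤ (finrank K V).factorial →
      ∀ U : Submodule K V, (∀ g ∈ Γ', ∀ x ∈ U, ρ g x ∈ U) → U = ⊥ ∨ U = ⊤) :
    ∃ v, GoodVec ρ b g₁ v := by
  obtain ⟨v, hv0, hv, hvv⟩ := exists_vector hb (hinv g₁) hε hcp (eval_ne hR hε)
  have hproj := fun (m : ℕ) (hm : 0 < m) => exists_proj' hb hinv hε hcp hR hvv hv hm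
  exact ⟨v, hvv, hproj, fun H hH => span_top' hinv hvv hproj hred hH⟩

end

end Pool.Agent.Y134.TH
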