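import Pool.Agent.Y134.TF.Iso
import Pool.Agent.Y134.TH.Span

/-!
# Strong irreducibility over the algebraically closed field and isolated roots
-/

set_option autoImplicit false

namespace Pool.Agent.Y134.TH

open Polynomial Module Pool.Agent.Y134.Two Pool.Agent.TH125.Gal Pool.Agent.Y130
  Pool.Agent.Y134.TF

section
variable {K₀ K A V : Type} [Field K₀] [CharZero K₀] [Field K] [IsAlgClosed K] [Algebra K₀ K]
  [Ring A] [Algebra K A] [AddCommGroup V] [Module K₀ V] [FiniteDimensional K₀ V] {Γ : Type}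
  [Group Γ] {χ : Γ →* Kˣ} {tr : A →ₗ[K] K} {r : ℕ} {T : Submodule K A} {act : Γ →* (A ≃ₐ[K] A)}
  {b : V →ₗ[K₀] V →ₗ[K₀] K₀} {ρ : Representation K₀ Γ V} {j : V →+ A}

theorem irred_of_good (h : IsRational χ tr r T act b ρ j) (hF : FormOn χ tr r T act)
    {g₁ : Γ} {v : V} (hv : GoodVec ρ b g₁ v) : IrredAct act T := by
  -- stable subspaces which contain the vector
  have keyA : ∀ Δ : Subgroup Γ, Δ.FiniteIndex → ∀ U ≤ T, (∀ g ∈ Δ, ∀ a ∈ U, act g a ∈ U) →
      j v ∈ U → U = T := by
    intro Δ hΔ U hU hst hvU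
    refine le_antisymm hU ?_
    have h1 := hv.span Δ hΔ
    have h3 : ∀ x : V, j x ∈ U := by
      intro x
      have hx : x ∈ Submodule.span K₀ {x | ∃ g ∈ Δ, x = ρ g v} := by
        rw [h1]
        exact Submodule.mem_top
      induction hx using Submodule.span_induction with
      | mem x hx =>
        obtain ⟨g, hg, rfl⟩ := hx
        rw [← nrm_j h]
        exact U.smul_mem _ (hst g hg _ hvU)
      | zero => rw [map_zero]; exact U.zero_mem
      | add x y _ _ hx hy => rw [map_add]; exact U.add_mem hx hy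
      | smul c x _ hx => rw [h.smul]; exact U.smul_mem _ hx
    rw [← h.span, Submodule.span_le]
    rintro _ ⟨x, rfl⟩
    exact h3 x
  -- stable subspaces which do not contain the vector
  have keyB : ∀ Δ : Subgroup Γ, Δ.FiniteIndex → ∀ U ≤ T, (∀ g ∈ Δ, ∀ a ∈ U, act g a ∈ U) →
      j v ∉ U → ∀ u ∈ U, tr (j v * u) = 0 := by
    intro Δ hΔ U hU hst hvU u hu
    obtain ⟨m, hm, -, hmΔ⟩ := Δ.exists_pow_mem_of_index_ne_zero hΔ.index_ne_zero g₁
    obtain ⟨S, κ, hκ, hS⟩ := hv.proj m hm
    have h1 : ∀ t ∈ T, (aeval (nrm χ r act (g₁ ^ m)) (S.map (algebraMap K₀ K))) t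
        = (algebraMap K₀ K κ * tr (j v * t)) • j v := by
      intro t ht
      rw [← h.span] at ht
      induction ht using Submodule.span_induction with
      | mem x hx =>
        obtain ⟨x, rfl⟩ := hx
        rw [aeval_nrm h, map_pow, hS, h.smul, h.form, map_mul]
      | zero => rw [map_zero, mul_zero, map_zero, mul_zero, zero_smul]
      | add x y _ _ hx hy => rw [map_add, hx, hy, mul_add, map_add, mul_add, add_smul]
      | smul c x _ hx =>
        rw [map_smul, hx, mul_smul_comm, map_smul, smul_smul, smul_eq_mul]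
        congr 1
        ring
    have h3 : (aeval (nrm χ r act (g₁ ^ m)) (S.map (algebraMap K₀ K))) u ∈ U := by
      have hstab : ∀ x ∈ U, nrm χ r act (g₁ ^ m) x ∈ U :=
        fun x hx => U.smul_mem _ (hst _ hmΔ x hx)
      have h4 := aeval_restrict hstab (S.map (algebraMap K₀ K)) ⟨u, hu⟩
      rw [h4]
      exact Submodule.coe_mem _
    rw [h1 u (hU hu)] at h3
    by_contra hne
    apply hvU
    have h5 : algebraMap K₀ K κ * tr (j v * u) ≠ 0 :=
      mul_ne_zero ((_root_.map_ne_zero _).2 hκ) hne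
    have h6 := U.smul_mem (algebraMap K₀ K κ * tr (j v * u))⁻¹ h3
    rwa [smul_smul, inv_mul_cancel₀ h5, one_smul] at h6
  intro Δ hΔ U hU hst
  by_cases hvU : j v ∈ U
  · exact Or.inr (keyA Δ hΔ U hU hst hvU)
  · left
    have hB := keyB Δ hΔ U hU hst hvU
    -- the orthogonal complement
    let P : Submodule K A :=
      { carrier := {t | t ∈ T ∧ ∀ u ∈ U, tr (t * u) = 0}
        add_mem' := by
          rintro x y ⟨hx, hx'⟩ ⟨hy, hy'⟩
          refine ⟨T.add_mem hx hy, fun u hu => ?_⟩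
          rw [add_mul, map_add, hx' u hu, hy' u hu, add_zero]
        zero_mem' := ⟨T.zero_mem, fun u _ => by rw [zero_mul, map_zero]⟩
        smul_mem' := by
          rintro c x ⟨hx, hx'⟩
          refine ⟨T.smul_mem c hx, fun u hu => ?_⟩
          rw [smul_mul_assoc, map_smul, hx' u hu, smul_zero] }
    have hTst : ∀ g, ∀ x ∈ T, act g x ∈ T := by
      intro g x hx
      rw [← h.span] at hx ⊢
      induction hx using Submodule.span_induction with
      | mem x hx =>
        obtain ⟨x, rfl⟩ := hx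
        rw [h.equivariant]
        exact Submodule.smul_mem _ _ (Submodule.subset_span ⟨_, rfl⟩)
      | zero => rw [map_zero]; exact Submodule.zero_mem _
      | add x y _ _ hx hy => rw [map_add]; exact Submodule.add_mem _ hx hy
      | smul c x _ hx => rw [map_smul]; exact Submodule.smul_mem _ _ hx
    have hP := keyA Δ hΔ P (fun x hx => hx.1) (by
      rintro g hg x ⟨hx, hx'⟩
      refine ⟨hTst g x hx, fun u hu => ?_⟩
      have h3 : u = act g (act g⁻¹ u) := by
        rw [← AlgEquiv.mul_apply, ← map_mul, mul_inv_cancel, map_one, AlgEquiv.one_apply]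
      have h4 : act g x * u = act g (x * act g⁻¹ u) := by
        rw [map_mul]
        rw [← h3]
      rw [h4, hF.act, hx' _ (hst _ (Δ.inv_mem hg) u hu), mul_zero])
      ⟨h.mem v, fun u hu => hB u hu⟩
    rw [eq_bot_iff]
    intro u hu
    rw [Submodule.mem_bot]
    apply hF.nondeg u (hU hu)
    intro y hy
    rw [hF.symm u (hU hu) y hy]
    rw [← hP] at hy
    exact hy.2 u hu

variable [FiniteDimensional K T]

/-- A simple isolated root of the characteristic polynomial gives an isolated eigenvector. -/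
theorem isolated_of_simple (h : IsRational χ tr r T act b ρ j) {g₁ : Γ} {E : Set K} {a : K}
    (ha : IsolatedRoot (ρ g₁).charpoly E a)
    (hs : aeval a (derivative (ρ g₁).charpoly) ≠ 0) :
    ∃ v ∈ T, IsolatedVec T act g₁ ((χ g₁ : K) ^ (2 * r)) E ((χ g₁ : K) ^ r * a) v := by
  classical
  have hχ : (χ g₁ : K) ^ r ≠ 0 := pow_ne_zero _ (Units.ne_zero _)
  set Ψ : Module.End K T := (nrm χ r act g₁).restrict (nrm_mem h g₁) with hΨ
  have hcp : Ψ.charpoly = (ρ g₁).charpoly.map (algebraMap K₀ K) := by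
    rw [hΨ, charpoly_nrm h g₁]
  have heig : Module.End.HasEigenvalue Ψ a := by
    rw [Module.End.hasEigenvalue_iff_isRoot_charpoly, hcp, IsRoot.def, eval_map_algebraMap]
    exact ha.root
  obtain ⟨v, hv⟩ := heig.exists_hasEigenvector
  have hvA : nrm χ r act g₁ (v : A) = a • (v : A) := congrArg Subtype.val hv.apply_eq_smul
  have hactv : act g₁ (v : A) = ((χ g₁ : K) ^ r * a) • (v : A) := by
    have h3 : ((χ g₁ : K) ^ r)⁻¹ • act g₁ (v : A) = a • (v : A) := hvA
    rw [mul_smul, ← h3, smul_smul, mul_inv_cancel₀ hχ, one_smul]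
  -- the multiplicity
  have hmult : finrank K (Ψ.maxGenEigenspace a) ≤ 1 := by
    rw [LinearMap.finrank_maxGenEigenspace_eq, hcp]
    by_contra h1
    have h2 := (Polynomial.one_lt_rootMultiplicity_iff_isRoot
      ((LinearMap.charpoly_monic (ρ g₁)).map (algebraMap K₀ K)).ne_zero).1 (not_le.1 h1)
    apply hs
    have h3 := h2.2
    rw [derivative_map, IsRoot.def, eval_map_algebraMap] at h3
    exact h3
  have hratio : ∀ z : K, aeval z (ρ g₁).charpoly = 0 → ∀ n : ℕ, 0 < n → z ^ n = a ^ n → z = a :=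
    fun z hz n hn hza => ha.indep z hz n hn 1 (one_mem _) (by rw [hza, Units.val_one, one_mul])
  have hE : ∀ β ∈ eigOn T act g₁, aeval (((χ g₁ : K) ^ r)⁻¹ * β) (ρ g₁).charpoly = 0 :=
    fun β hβ => aeval_eig h hβ
  have hun : ∀ β : K, ((χ g₁ : K) ^ r)⁻¹ * β = a → β = (χ g₁ : K) ^ r * a := by
    intro β hβ
    rw [← hβ, mul_inv_cancel_left₀ hχ]
  refine ⟨v, v.2, ?_, hactv, ?_, ?_, ?_⟩
  · intro h3
    exact hv.2 (Subtype.ext h3)
  · -- simple
    intro β hβ x hx hgen
    by_cases hx0 : x = 0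
    · exact ⟨0, by rw [hx0, zero_smul]⟩
    have hgenβ := hgen
    rw [Module.End.mem_maxGenEigenspace] at hgenβ
    -- `β` is an eigenvalue
    have hβe : β ∈ eigOn T act g₁ := by
      have hmin := Nat.find_spec hgenβ
      have hk0 : Nat.find hgenβ ≠ 0 := by
        intro h0
        rw [h0, pow_zero, Module.End.one_apply] at hmin
        exact hx0 hmin
      obtain ⟨k, hk⟩ := Nat.exists_eq_succ_of_ne_zero hk0
      refine ⟨(((act g₁).toLinearMap - β • (1 : Module.End K A)) ^ k) x, ?_, ?_, ?_⟩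
      · have h3 := pow_restrict (nrm_mem h g₁) (((χ g₁ : K) ^ r)⁻¹ * β) k ⟨x, hx⟩
        rw [pow_nrm] at h3
        have h4 : ((((χ g₁ : K) ^ r)⁻¹) ^ k) •
            (((act g₁).toLinearMap - β • (1 : Module.End K A)) ^ k) x ∈ T := by
          rw [← h3]
          exact Submodule.coe_mem _
        have h5 := T.smul_mem (((((χ g₁ : K) ^ r)⁻¹) ^ k)⁻¹) h4
        rwa [smul_smul, inv_mul_cancel₀ (pow_ne_zero _ (inv_ne_zero hχ)), one_smul] at h5
      · intro h0
        have := Nat.find_min' hgenβ h0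
        omega
      · rw [hk, pow_succ', Module.End.mul_apply, LinearMap.sub_apply, LinearMap.smul_apply,
          Module.End.one_apply, sub_eq_zero] at hmin
        exact hmin
    have hβa : β = (χ g₁ : K) ^ r * a := by
      obtain ⟨n, hn, hnn⟩ := hβ
      apply hun
      refine hratio _ (hE β hβe) n hn ?_
      rw [mul_pow, hnn, mul_pow, ← mul_assoc, ← mul_pow, inv_mul_cancel₀ hχ, one_pow, one_mul]
    -- the vector is in the generalized eigenspace of the restriction
    have hxΨ : (⟨x, hx⟩ : T) ∈ Ψ.maxGenEigenspace a := by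
      obtain ⟨n, hn⟩ := hgenβ
      rw [Module.End.mem_maxGenEigenspace]
      refine ⟨n, Subtype.ext ?_⟩
      rw [hΨ, pow_restrict]
      have h3 : a = ((χ g₁ : K) ^ r)⁻¹ * β := by rw [hβa, inv_mul_cancel_left₀ hχ]
      rw [h3, pow_nrm, hn, smul_zero]
      rfl
    have hvΨ : v ∈ Ψ.maxGenEigenspace a := by
      rw [Module.End.mem_maxGenEigenspace]
      refine ⟨1, ?_⟩
      rw [pow_one, LinearMap.sub_apply, LinearMap.smul_apply, Module.End.one_apply, sub_eq_zero]
      exact hv.apply_eq_smul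
    have hle : Submodule.span K {v} ≤ Ψ.maxGenEigenspace a := by
      rw [Submodule.span_singleton_le_iff_mem]
      exact hvΨ
    have heq : Submodule.span K {v} = Ψ.maxGenEigenspace a := by
      refine Submodule.eq_of_le_of_finrank_le hle ?_
      rw [finrank_span_singleton hv.2]
      exact hmult
    rw [← heq] at hxΨ
    obtain ⟨c, hc⟩ := Submodule.mem_span_singleton.1 hxΨ
    exact ⟨c, (congrArg Subtype.val hc).symm⟩
  · -- rel
    intro β hβ γ hγ δ hδ hr
    obtain ⟨n, hn, hnn⟩ := hr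
    have h3 : UpTo (a * (((χ g₁ : K) ^ r)⁻¹ * δ))
        ((((χ g₁ : K) ^ r)⁻¹ * β) * (((χ g₁ : K) ^ r)⁻¹ * γ)) := by
      refine ⟨n, hn, ?_⟩
      have h4 : a * (((χ g₁ : K) ^ r)⁻¹ * δ)
          = (((χ g₁ : K) ^ r)⁻¹ * ((χ g₁ : K) ^ r)⁻¹) * ((χ g₁ : K) ^ r * a * δ) := by
        field_simp
      have h5 : (((χ g₁ : K) ^ r)⁻¹ * β) * (((χ g₁ : K) ^ r)⁻¹ * γ)
          = (((χ g₁ : K) ^ r)⁻¹ * ((χ g₁ : K) ^ r)⁻¹) * (β * γ) := by ring
      rw [h4, h5, mul_pow, hnn, ← mul_pow]
    rcases ha.rel _ _ _ (hE β hβ) (hE γ hγ) (hE δ hδ) h3 with h4 | h4 | h4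
    · left
      rw [hun β h4]
      exact ⟨1, one_pos, rfl⟩
    · right; left
      rw [hun γ h4]
      exact ⟨1, one_pos, rfl⟩
    · right; right
      obtain ⟨n, hn, hnn⟩ := h4
      refine ⟨n, hn, ?_⟩
      have h5 : (χ g₁ : K) ^ r * a * δ
          = (χ g₁ : K) ^ (2 * r) * (a * (((χ g₁ : K) ^ r)⁻¹ * δ)) := by
        rw [two_mul, pow_add]
        field_simp
      rw [h5, mul_pow, hnn, one_pow, mul_one]
  · -- indep
    intro β hβ n hn u hu hun'
    have h3 : (((χ g₁ : K) ^ r)⁻¹ * β) ^ n = u * a ^ n := by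
      rw [mul_pow, hun', mul_pow]
      have h4 : (((χ g₁ : K) ^ r)⁻¹) ^ n * ((χ g₁ : K) ^ r) ^ n = 1 := by
        rw [← mul_pow, inv_mul_cancel₀ hχ, one_pow]
      linear_combination (u * a ^ n) * h4
    rw [hun β (ha.indep _ (hE β hβ) n hn u hu h3)]
    exact ⟨1, one_pos, rfl⟩

end

end Pool.Agent.Y134.TH
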