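import Pool.Agent.Y134.TF.Geo

/-!
# Varieties without Tate classes in the primitive part
-/

set_option autoImplicit false

universe u

namespace Pool.Agent.Y134.TH

open Polynomial Module Pool.Agent.Y130 Pool.Agent.TH125.Gal Pool.Agent.TH118.SG
open Pool.Agent.H914 Pool.Agent.H914.VarClass Pool.Agent.H914.VarClass.Obj
  Pool.Agent.H914.WeilCohomology Pool.Agent.H281R3.HT Pool.Agent.W552 Pool.Agent.Y134.TF

variable {k : Type u} [Field k] {𝒱 : VarClass k} {ops : CycleOps 𝒱}
  {W : WeilCohomology.{u, 0} ops} {Γ : Type} [Group Γ]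

theorem middle_of_noTate {χ : Γ →* W.Kˣ} {X : GVar W Γ} {A P : Submodule W.K (W.H X.X)}
    (hG : IsGaloisAct χ (W.gr X.X) X.X.dim (W.tr X.X) (algClasses W X.X) X.act)
    (he : Even X.X.dim) (hA : A ≤ algSpan W X.X) (hP : P ≤ W.gr X.X X.X.dim) (hAP : A ⊔ P = ⊤)
    (ho : ∀ a ∈ A, ∀ x ∈ P, W.tr X.X (a * x) = 0) (hst : ∀ g, ∀ x ∈ P, X.act g x ∈ P)
    (hNT : ∀ x ∈ P, (∃ Δ : Subgroup Γ, Δ.FiniteIndex ∧
      ∀ g ∈ Δ, X.act g x = (χ g : W.K) ^ (X.X.dim / 2) • x) → x = 0) :
    transcendental W X.X = P ∧ HomEqNum W X.X ∧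
      (∀ z ∈ algSpan W X.X, (∀ c ∈ algSpan W X.X, W.tr X.X (z * c) = 0) → z = 0) ∧
      TateConjecture χ X := by
  have hF := formOn hG he hA hP hAP ho
  have hdim : 2 * (X.X.dim / 2) = X.X.dim := Nat.mul_div_cancel' he.two_dvd
  -- there are no algebraic classes in `P`
  have hbot : algSpan W X.X ⊓ P = ⊥ := by
    rw [eq_bot_iff]
    rintro x ⟨hx, hx'⟩
    rw [Submodule.mem_bot]
    apply hNT x hx'
    have h3 : x ∈ W.gr X.X (2 * (X.X.dim / 2)) := by
      rw [hdim]
      exact hP hx'
    exact exists_fix hG (algSpan_gr hx h3)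
  -- all algebraic classes are in `A`
  have hAeq : ∀ x ∈ algSpan W X.X, x ∈ A := by
    intro x hx
    have h1 : x ∈ A ⊔ P := by rw [hAP]; exact Submodule.mem_top
    obtain ⟨a, ha, p, hp, rfl⟩ := Submodule.mem_sup.1 h1
    have h2 : p ∈ algSpan W X.X ⊓ P := by
      refine ⟨?_, hp⟩
      have h3 := (algSpan W X.X).sub_mem hx (hA ha)
      rwa [add_sub_cancel_left] at h3
    rw [hbot, Submodule.mem_bot] at h2
    rw [h2, add_zero]
    exact ha
  have hPT : P ≤ transcendental W X.X := by
    intro x hx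
    rw [mem_trans']
    intro c hc
    rw [bil_apply, ← alg_comm hc]
    exact ho c (hAeq c hc) x hx
  have hnz : ∀ z ∈ algSpan W X.X, (∀ c ∈ algSpan W X.X, W.tr X.X (z * c) = 0) → z = 0 := by
    intro z hz key
    apply W.nondeg
    intro y
    have hy : y ∈ A ⊔ P := by rw [hAP]; exact Submodule.mem_top
    obtain ⟨a, ha, p, hp, rfl⟩ := Submodule.mem_sup.1 hy
    rw [mul_add, map_add, ho _ (hAeq _ hz) p hp, add_zero]
    exact key a (hA ha)
  refine ⟨le_antisymm ?_ hPT, ?_, hnz, ?_⟩
  · intro t ht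
    have h1 : t ∈ A ⊔ P := by rw [hAP]; exact Submodule.mem_top
    obtain ⟨a, ha, p, hp, rfl⟩ := Submodule.mem_sup.1 h1
    have h2 : a ∈ transcendental W X.X := by
      have h3 := (transcendental W X.X).sub_mem ht (hPT hp)
      rwa [add_sub_cancel_right] at h3
    have h3 : a = 0 := by
      apply W.nondeg
      intro y
      have hy : y ∈ A ⊔ P := by rw [hAP]; exact Submodule.mem_top
      obtain ⟨a', ha', p', hp', rfl⟩ := Submodule.mem_sup.1 hy
      rw [mul_add, map_add, ho a ha p' hp', add_zero]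
      exact trans_alg h2 (hA ha')
    rw [h3, zero_add]
    exact hp
  · intro i hi z hz hzw
    have key : ∀ c ∈ algSpan W X.X, W.tr X.X (W.cl X.X z * c) = 0 := by
      intro c hc
      induction hc using Submodule.span_induction with
      | mem c hc =>
        obtain ⟨l, hl⟩ := Set.mem_iUnion.1 hc
        obtain ⟨w, hw, rfl⟩ := hl
        by_cases hil : i + l = X.X.dim
        · have h2 : l = X.X.dim - i := by omega
          have h3 := hzw w (h2 ▸ hw)
          have h4 : X.X.IsCyc X.X.dim (ops.mul z w) := by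
            have := ops.mul_mem hz hw
            rwa [hil] at this
          rw [← W.cl_mul, W.tr_cl h4, h3]
          simp
        · refine W.tr_eq_zero (W.mul_mem (W.cl_mem hz) (W.cl_mem hw)) ?_
          omega
      | zero => rw [mul_zero, map_zero]
      | add x y _ _ hx hy => rw [mul_add, map_add, hx, hy, add_zero]
      | smul c x _ hx => rw [mul_smul_comm, map_smul, hx, smul_zero]
    exact hnz _ (alg_mem ⟨z, hz, rfl⟩) key
  · -- the Tate conjecture
    rintro l c hc ⟨Δ, hΔ, hfix⟩
    have h1 : c ∈ A ⊔ P := by rw [hAP]; exact Submodule.mem_top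
    obtain ⟨a, ha, p, hp, rfl⟩ := Submodule.mem_sup.1 h1
    have hcy : ∀ y ∈ P, W.tr X.X ((a + p) * y) = W.tr X.X (p * y) := by
      intro y hy
      rw [add_mul, map_add, ho a ha y hy, zero_add]
    have hp0 : p = 0 := by
      by_cases hl : 2 * l = X.X.dim
      · have hl' : l = X.X.dim / 2 := by omega
        apply hNT p hp
        refine ⟨Δ, hΔ, fun g hg => ?_⟩
        have h2 : X.act g p - (χ g : W.K) ^ (X.X.dim / 2) • p ∈ P :=
          P.sub_mem (hst g p hp) (P.smul_mem _ hp)
        have h3 := hF.nondeg _ h2 (by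
          intro y hy
          have h4 : y = X.act g (X.act g⁻¹ y) := by
            rw [← AlgEquiv.mul_apply, ← map_mul, mul_inv_cancel, map_one, AlgEquiv.one_apply]
          have hy' : X.act g⁻¹ y ∈ P := hst _ y hy
          set y' := X.act g⁻¹ y with hy'def
          rw [sub_mul, map_sub, smul_mul_assoc, map_smul, h4, ← map_mul, hG.tr_act, ← hcy y' hy',
            ← hcy (X.act g y') (hst g y' hy'), sub_eq_zero, smul_eq_mul]
          have h5 := hfix g hg
          have h6 : W.tr X.X (X.act g ((a + p) * y'))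
              = (χ g : W.K) ^ l * W.tr X.X ((a + p) * X.act g y') := by
            rw [map_mul, h5, smul_mul_assoc, map_smul, smul_eq_mul]
          rw [hG.tr_act] at h6
          rw [h6, hl'])
        exact sub_eq_zero.1 h3
      · refine hF.nondeg p hp fun y hy => ?_
        rw [← hcy y hy]
        refine W.tr_eq_zero (W.mul_mem hc (hP hy)) ?_
        omega
    rw [hp0, add_zero] at hc ⊢
    exact algSpan_gr (hA ha) hc

end Pool.Agent.Y134.TH
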